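import Pool.Agent.helper11.OFP.Spec

/-!
Row ofp:ERG. A measurable function invariant under the flips of single coordinates is almost everywhere constant.
-/

set_option autoImplicit false

open MeasureTheory

namespace Pool.Agent.OFP

open Pool.Agent.LOF MeasureTheory

/-- the first `n` coordinates replaced by `false` -/
def ERG_cut (n : ℕ) (c : ℕ → Bool) : ℕ → Bool := fun i => if i < n then false else c i

theorem ERG_inv (f : (ℕ → Bool) → ℝ) (hf : ∀ c N, f (Function.update c N (!c N)) = f c) (n : ℕ)
    (c : ℕ → Bool) : f (ERG_cut n c) = f c := by
  induction n with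
  | zero =>
    have : ERG_cut 0 c = c := by
      funext i
      simp [ERG_cut]
    rw [this]
  | succ n ih =>
    rw [← ih]
    by_cases h : c n = false
    · have : ERG_cut (n + 1) c = ERG_cut n c := by
        funext i
        unfold ERG_cut
        rcases lt_trichotomy i n with h1 | h1 | h1
        · rw [if_pos (by omega), if_pos h1]
        · subst h1
          rw [if_pos (by omega), if_neg (by omega), h]
        · rw [if_neg (by omega), if_neg (by omega)]
      rw [this]
    · have h' : c n = true := by simpa using h
      have : ERG_cut (n + 1) c = Function.update (ERG_cut n c) n (!(ERG_cut n c) n) := by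
        funext i
        rcases lt_trichotomy i n with h1 | h1 | h1
        · rw [Function.update_of_ne (by omega)]
          unfold ERG_cut
          rw [if_pos (by omega), if_pos h1]
        · subst h1
          rw [Function.update_self]
          unfold ERG_cut
          rw [if_pos (by omega), if_neg (by omega), h']
          rfl
        · rw [Function.update_of_ne (by omega)]
          unfold ERG_cut
          rw [if_neg (by omega), if_neg (by omega)]
      rw [this]
      exact hf _ n

theorem ERG_zeroOne (A : Set (ℕ → Bool)) (hA : MeasurableSet A)
    (hinv : ∀ n, ERG_cut n ⁻¹' A = A) : fair A = 0 ∨ fair A = 1 := by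
  have hind : ProbabilityTheory.iIndepFun (fun (i : ℕ) (ω : ℕ → Bool) => ω i) fair :=
    ProbabilityTheory.iIndepFun_infinitePi (P := fun _ : ℕ => coin) (X := fun _ ω => ω) (by fun_prop)
  refine ProbabilityTheory.measure_zero_or_one_of_measurableSet_limsup_atTop
    (s := fun i : ℕ => MeasurableSpace.comap (fun ω : ℕ → Bool => ω i) inferInstance) ?_ hind ?_
  · intro i
    exact (measurable_pi_apply i).comap_le
  · rw [Filter.limsup_eq_iInf_iSup_of_nat]
    rw [MeasurableSpace.measurableSet_iInf]
    intro n
    rw [← hinv n]
    have hm : @Measurable _ _ (⨆ i ≥ n, MeasurableSpace.comap (fun ω : ℕ → Bool => ω i) inferInstance) _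
        (ERG_cut n) := by
      refine @measurable_pi_lambda _ _ _ (⨆ i ≥ n, MeasurableSpace.comap (fun ω : ℕ → Bool => ω i) inferInstance) _ _ ?_
      intro i
      by_cases hi : i < n
      · have : (fun c : ℕ → Bool => ERG_cut n c i) = fun _ => false := by
          funext c
          unfold ERG_cut
          rw [if_pos hi]
        rw [this]
        exact measurable_const
      · have : (fun c : ℕ → Bool => ERG_cut n c i) = fun c => c i := by
          funext c
          unfold ERG_cut
          rw [if_neg hi]
        rw [this]
        refine Measurable.mono (comap_measurable (fun ω : ℕ → Bool => ω i)) ?_ (le_refl _)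
        exact le_iSup₂_of_le i (not_lt.1 hi) (le_refl _)
    exact hm hA

theorem ERG : ERG_stmt := by
  intro f hf hinv
  have h1 : ∀ U : Set ℝ, MeasurableSet U → (∀ᶠ x in ae fair, f x ∈ U) ∨ (∀ᶠ x in ae fair, f x ∉ U) := by
    intro U hU
    have hA : MeasurableSet (f ⁻¹' U) := hf hU
    have hprob : IsProbabilityMeasure fair := by
      unfold fair
      infer_instance
    rcases ERG_zeroOne (f ⁻¹' U) hA (by
      intro n
      ext c
      show f (ERG_cut n c) ∈ U ↔ f c ∈ U
      rw [ERG_inv f hinv n c]) with h | h
    · right
      rw [ae_iff]
      have : {a | ¬ f a ∉ U} = f ⁻¹' U := by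
        ext c
        simp
      rw [this]
      exact h
    · left
      rw [ae_iff]
      have : {a | ¬ f a ∈ U} = (f ⁻¹' U)ᶜ := by
        ext c
        simp
      rw [this]
      exact (prob_compl_eq_zero_iff hA).2 h
  obtain ⟨a, ha⟩ := Filter.exists_eventuallyEq_const_of_forall_separating (l := ae fair) (f := f)
    MeasurableSet h1
  exact ⟨a, ae_iff.1 ha⟩

end Pool.Agent.OFP
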